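import Pool.Agent.H332R2.FL.Saw

open MeasureTheory Set

namespace H332.FL

lemma quad_expand (n : ℕ) (c : ℕ → ℝ) :
    ∫ t in (0 : ℝ)..1, (∑ d ∈ Finset.Icc 1 n, c d * sw (d * t)) ^ 2 =
      ∑ a ∈ Finset.Icc 1 n, ∑ b ∈ Finset.Icc 1 n, c a * c b * JJ a b := by
  have h1 : ∀ t : ℝ, (∑ d ∈ Finset.Icc 1 n, c d * sw (d * t)) ^ 2 =
      ∑ a ∈ Finset.Icc 1 n, ∑ b ∈ Finset.Icc 1 n, c a * c b * (sw (a * t) * sw (b * t)) := by
    intro t
    rw [sq, Finset.sum_mul_sum]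
    refine Finset.sum_congr rfl fun a _ => Finset.sum_congr rfl fun b _ => by ring
  simp_rw [h1]
  have hint : ∀ a b : ℕ, IntervalIntegrable (fun t => c a * c b * (sw (a * t) * sw (b * t)))
      volume 0 1 := by
    intro a b
    exact (ii_prod (by fun_prop) (by fun_prop) _ _).const_mul _
  rw [intervalIntegral.integral_finsetSum]
  · refine Finset.sum_congr rfl fun a _ => ?_
    rw [intervalIntegral.integral_finsetSum (fun b _ => hint a b)]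
    refine Finset.sum_congr rfl fun b _ => ?_
    rw [intervalIntegral.integral_const_mul]
    rfl
  · intro a _
    have h := IntervalIntegrable.sum (Finset.Icc 1 n) fun b _ => hint a b
    have e : (∑ b ∈ Finset.Icc 1 n, fun t : ℝ => c a * c b * (sw (a * t) * sw (b * t))) =
        fun t => ∑ b ∈ Finset.Icc 1 n, c a * c b * (sw (a * t) * sw (b * t)) := by
      ext t; simp
    rw [← e]
    exact h

lemma sum_mult_le (σ : ℝ) (hσ : 1 / 2 < σ) (n g : ℕ) (hg : 0 < g) :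
    ∑ a ∈ Finset.Icc 1 n, (if g ∣ a then (a : ℝ) ^ (-(1 + σ)) else 0) ≤
      (g : ℝ) ^ (-(1 + σ)) * ∑' k : ℕ, (k : ℝ) ^ (-(1 + σ)) := by
  have hsum : Summable fun k : ℕ => (k : ℝ) ^ (-(1 + σ)) :=
    Real.summable_nat_rpow.2 (by linarith)
  rw [← Finset.sum_filter]
  have h1 : ∑ a ∈ (Finset.Icc 1 n).filter (fun a => g ∣ a), (a : ℝ) ^ (-(1 + σ)) =
      ∑ k ∈ Finset.Icc 1 (n / g), ((g * k : ℕ) : ℝ) ^ (-(1 + σ)) := by
    symm
    refine Finset.sum_nbij' (fun k => g * k) (fun a => a / g) ?_ ?_ ?_ ?_ ?_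
    · intro k hk
      rw [Finset.mem_Icc, Nat.le_div_iff_mul_le hg] at hk
      rw [Finset.mem_filter, Finset.mem_Icc]
      refine ⟨⟨Nat.mul_pos hg hk.1, ?_⟩, dvd_mul_right g k⟩
      rw [mul_comm]; exact hk.2
    · intro a ha
      rw [Finset.mem_filter, Finset.mem_Icc] at ha
      obtain ⟨⟨h1, h2⟩, ⟨k, rfl⟩⟩ := ha
      rw [Nat.mul_div_cancel_left k hg, Finset.mem_Icc, Nat.le_div_iff_mul_le hg, mul_comm]
      refine ⟨Nat.pos_of_ne_zero (by rintro rfl; simp at h1), h2⟩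
    · intro k _
      exact Nat.mul_div_cancel_left k hg
    · intro a ha
      rw [Finset.mem_filter] at ha
      exact Nat.mul_div_cancel' ha.2
    · intro k _
      rfl
  rw [h1]
  have h2 : ∀ k ∈ Finset.Icc 1 (n / g), ((g * k : ℕ) : ℝ) ^ (-(1 + σ)) =
      (g : ℝ) ^ (-(1 + σ)) * (k : ℝ) ^ (-(1 + σ)) := by
    intro k _
    push_cast
    rw [Real.mul_rpow (by positivity) (by positivity)]
  rw [Finset.sum_congr rfl h2, ← Finset.mul_sum]
  apply mul_le_mul_of_nonneg_left _ (by positivity)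
  exact hsum.sum_le_tsum _ fun k _ => by positivity

/-- the Franel quadratic form -/
theorem quad_bound (σ : ℝ) (hσ : 1 / 2 < σ) : ∃ K : ℝ, 0 < K ∧ ∀ (n : ℕ) (c : ℕ → ℝ) (B : ℝ), 0 ≤ B →
    (∀ d ∈ Finset.Icc 1 n, |c d| ≤ B * (d : ℝ) ^ (-σ)) →
    ∫ t in (0 : ℝ)..1, (∑ d ∈ Finset.Icc 1 n, c d * sw (d * t)) ^ 2 ≤ K * B ^ 2 := by
  set Z : ℝ := ∑' k : ℕ, (k : ℝ) ^ (-(1 + σ)) with hZ
  set Z' : ℝ := ∑' k : ℕ, (k : ℝ) ^ (-(2 * σ)) with hZ'
  have hsum' : Summable fun k : ℕ => (k : ℝ) ^ (-(2 * σ)) :=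
    Real.summable_nat_rpow.2 (by linarith)
  have hZ0 : 0 ≤ Z := tsum_nonneg fun k => by positivity
  have hZ0' : 0 ≤ Z' := tsum_nonneg fun k => by positivity
  refine ⟨Z ^ 2 * Z' + 1, by positivity, fun n c B hB hc => ?_⟩
  rw [quad_expand]
  set α : ℕ → ℝ := fun a => (a : ℝ) ^ (-(1 + σ)) with hα
  have hα0 : ∀ a, 0 ≤ α a := fun a => by simp only [hα]; positivity
  have h1 : ∀ a ∈ Finset.Icc 1 n, ∀ b ∈ Finset.Icc 1 n, c a * c b * JJ a b ≤
      B ^ 2 * ∑ g ∈ Finset.Icc 1 n, (if g ∣ a then α a else 0) * (if g ∣ b then α b else 0) * (g : ℝ) ^ 2 := by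
    intro a ha b hb
    have hca := hc a ha
    have hcb := hc b hb
    rw [Finset.mem_Icc] at ha hb
    have ha0 : (0 : ℝ) < a := by exact_mod_cast ha.1
    have hb0 : (0 : ℝ) < b := by exact_mod_cast hb.1
    have hJ := JJ_eq a b ha.1 hb.1
    have hJ0 : 0 ≤ JJ a b := by rw [hJ]; positivity
    have hg : Nat.gcd a b ∈ Finset.Icc 1 n := by
      rw [Finset.mem_Icc]
      exact ⟨Nat.gcd_pos_of_pos_left b ha.1, (Nat.gcd_le_left b ha.1).trans ha.2⟩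
    have h2 : α a * α b * (Nat.gcd a b : ℝ) ^ 2 ≤
        ∑ g ∈ Finset.Icc 1 n, (if g ∣ a then α a else 0) * (if g ∣ b then α b else 0) * (g : ℝ) ^ 2 := by
      have h3 := Finset.single_le_sum (f := fun g : ℕ => (if g ∣ a then α a else 0) * (if g ∣ b then α b else 0) * (g : ℝ) ^ 2)
        (fun g _ => by
          have := hα0 a
          have := hα0 b
          positivity) hg
      simp only [Nat.gcd_dvd_left, Nat.gcd_dvd_right, if_true] at h3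
      exact h3
    have h4 : c a * c b ≤ (B * (a : ℝ) ^ (-σ)) * (B * (b : ℝ) ^ (-σ)) := by
      calc c a * c b ≤ |c a * c b| := le_abs_self _
        _ = |c a| * |c b| := abs_mul _ _
        _ ≤ _ := mul_le_mul hca hcb (abs_nonneg _) (by positivity)
    have e1 : α a = (a : ℝ) ^ (-σ) * (a : ℝ)⁻¹ := by
      simp only [hα]
      rw [neg_add, add_comm, Real.rpow_add ha0, Real.rpow_neg_one]
    have e2 : α b = (b : ℝ) ^ (-σ) * (b : ℝ)⁻¹ := by
      simp only [hα]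
      rw [neg_add, add_comm, Real.rpow_add hb0, Real.rpow_neg_one]
    calc c a * c b * JJ a b ≤ (B * (a : ℝ) ^ (-σ)) * (B * (b : ℝ) ^ (-σ)) * JJ a b :=
          mul_le_mul_of_nonneg_right h4 hJ0
      _ = B ^ 2 * (α a * α b * (Nat.gcd a b : ℝ) ^ 2) / 12 := by
          rw [hJ, e1, e2]; field_simp
      _ ≤ B ^ 2 * (α a * α b * (Nat.gcd a b : ℝ) ^ 2) := by
          have : 0 ≤ B ^ 2 * (α a * α b * (Nat.gcd a b : ℝ) ^ 2) := by
            have := hα0 a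
            have := hα0 b
            positivity
          linarith
      _ ≤ _ := mul_le_mul_of_nonneg_left h2 (by positivity)
  have h5 : ∑ a ∈ Finset.Icc 1 n, ∑ b ∈ Finset.Icc 1 n, c a * c b * JJ a b ≤
      ∑ a ∈ Finset.Icc 1 n, ∑ b ∈ Finset.Icc 1 n, B ^ 2 * ∑ g ∈ Finset.Icc 1 n,
        (if g ∣ a then α a else 0) * (if g ∣ b then α b else 0) * (g : ℝ) ^ 2 :=
    Finset.sum_le_sum fun a ha => Finset.sum_le_sum fun b hb => h1 a ha b hb
  have h6 : ∑ a ∈ Finset.Icc 1 n, ∑ b ∈ Finset.Icc 1 n, B ^ 2 * ∑ g ∈ Finset.Icc 1 n,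
        (if g ∣ a then α a else 0) * (if g ∣ b then α b else 0) * (g : ℝ) ^ 2 =
      B ^ 2 * ∑ g ∈ Finset.Icc 1 n, (g : ℝ) ^ 2 * (∑ a ∈ Finset.Icc 1 n, if g ∣ a then α a else 0) ^ 2 := by
    simp_rw [← Finset.mul_sum]
    congr 1
    have : ∀ a ∈ Finset.Icc 1 n, ∑ b ∈ Finset.Icc 1 n, ∑ g ∈ Finset.Icc 1 n,
        (if g ∣ a then α a else 0) * (if g ∣ b then α b else 0) * (g : ℝ) ^ 2 =
        ∑ g ∈ Finset.Icc 1 n, ∑ b ∈ Finset.Icc 1 n,
        (if g ∣ a then α a else 0) * (if g ∣ b then α b else 0) * (g : ℝ) ^ 2 := fun a _ =>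
      Finset.sum_comm
    rw [Finset.sum_congr rfl this, Finset.sum_comm]
    refine Finset.sum_congr rfl fun g _ => ?_
    rw [sq (∑ a ∈ Finset.Icc 1 n, if g ∣ a then α a else 0), Finset.sum_mul_sum, Finset.mul_sum]
    refine Finset.sum_congr rfl fun a _ => ?_
    rw [Finset.mul_sum]
    refine Finset.sum_congr rfl fun b _ => by ring
  have h7 : ∑ g ∈ Finset.Icc 1 n, (g : ℝ) ^ 2 * (∑ a ∈ Finset.Icc 1 n, if g ∣ a then α a else 0) ^ 2 ≤
      Z ^ 2 * Z' := by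
    have h8 : ∀ g ∈ Finset.Icc 1 n, (g : ℝ) ^ 2 * (∑ a ∈ Finset.Icc 1 n, if g ∣ a then α a else 0) ^ 2 ≤
        Z ^ 2 * (g : ℝ) ^ (-(2 * σ)) := by
      intro g hg
      rw [Finset.mem_Icc] at hg
      have hg0 : (0 : ℝ) < g := by exact_mod_cast hg.1
      have h9 := sum_mult_le σ hσ n g hg.1
      have h10 : 0 ≤ ∑ a ∈ Finset.Icc 1 n, (if g ∣ a then α a else 0) :=
        Finset.sum_nonneg fun a _ => by
          have := hα0 a
          positivity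
      have h11 : (∑ a ∈ Finset.Icc 1 n, if g ∣ a then α a else 0) ^ 2 ≤ ((g : ℝ) ^ (-(1 + σ)) * Z) ^ 2 :=
        pow_le_pow_left₀ h10 h9 2
      calc (g : ℝ) ^ 2 * (∑ a ∈ Finset.Icc 1 n, if g ∣ a then α a else 0) ^ 2 ≤
            (g : ℝ) ^ 2 * ((g : ℝ) ^ (-(1 + σ)) * Z) ^ 2 := mul_le_mul_of_nonneg_left h11 (by positivity)
        _ = Z ^ 2 * ((g : ℝ) ^ (2 : ℝ) * ((g : ℝ) ^ (-(1 + σ)) * (g : ℝ) ^ (-(1 + σ)))) := by
            rw [Real.rpow_two]; ring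
        _ = Z ^ 2 * (g : ℝ) ^ (-(2 * σ)) := by
            rw [← Real.rpow_add hg0, ← Real.rpow_add hg0]
            congr 2
            ring
    calc _ ≤ ∑ g ∈ Finset.Icc 1 n, Z ^ 2 * (g : ℝ) ^ (-(2 * σ)) := Finset.sum_le_sum h8
      _ = Z ^ 2 * ∑ g ∈ Finset.Icc 1 n, (g : ℝ) ^ (-(2 * σ)) := by rw [Finset.mul_sum]
      _ ≤ Z ^ 2 * Z' := mul_le_mul_of_nonneg_left
          (hsum'.sum_le_tsum _ fun k _ => by positivity) (by positivity)
  rw [h6] at h5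
  calc _ ≤ _ := h5
    _ ≤ B ^ 2 * (Z ^ 2 * Z') := mul_le_mul_of_nonneg_left h7 (by positivity)
    _ ≤ (Z ^ 2 * Z' + 1) * B ^ 2 := by nlinarith [sq_nonneg B]

end H332.FL
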