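import Pool.Agent.H370R2.Count
import Pool.Agent.H370R2.DirGood

open Complex

namespace H332.FL

/-- `ζ` has a zero with real part in `[1/2, 1)` (and large imaginary part). -/
theorem exists_zero_re_ge_half (T : ℝ) :
    ∃ ρ : ℂ, riemannZeta ρ = 0 ∧ 1 / 2 ≤ ρ.re ∧ ρ.re < 1 ∧ 1 < ρ.im ∧ T < ρ.im := by
  obtain ⟨C, T0, hC, hT0, h⟩ := H370.nn_asymp H370.good_zeta
  -- choose U large
  have hev : ∃ U : ℝ, T0 ≤ U ∧ T ≤ U ∧ 2 * Real.pi * C < Real.log U := by
    refine ⟨max (max T0 T) (Real.exp (2 * Real.pi * C + 1)), ?_, ?_, ?_⟩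
    · exact (le_max_left _ _).trans (le_max_left _ _)
    · exact (le_max_right _ _).trans (le_max_left _ _)
    · have h1 : Real.exp (2 * Real.pi * C + 1) ≤
          max (max T0 T) (Real.exp (2 * Real.pi * C + 1)) := le_max_right _ _
      have h2 := Real.log_le_log (Real.exp_pos _) h1
      rw [Real.log_exp] at h2
      linarith
  obtain ⟨U, hU0, hUT, hUlog⟩ := hev
  have hUpos : 0 < U := by linarith
  have hb := h U hU0 U (2 * U) le_rfl (by linarith) (by linarith) le_rfl
  have hNN : 0 < (H370.NN riemannZeta U (2 * U) : ℝ) := by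
    have h1 := (abs_le.1 hb).1
    have h2 : C * U < U * Real.log U / (2 * Real.pi) := by
      rw [lt_div_iff₀ (by positivity)]
      nlinarith [Real.pi_pos]
    linarith
  have hne : (H370.zset riemannZeta U (2 * U)).Nonempty := by
    by_contra hcon
    rw [Set.not_nonempty_iff_eq_empty] at hcon
    unfold H370.NN at hNN
    rw [hcon] at hNN
    simp at hNN
  obtain ⟨s, hs0, hs1, hsT, hsT2, hs⟩ := hne
  have him : 1 < s.im := by linarith
  by_cases hre : 1 / 2 ≤ s.re
  · exact ⟨s, hs, hre, hs1, him, by linarith⟩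
  · push Not at hre
    have hsym := H370.good_zeta.symm s hs0 hs1 him.le
    refine ⟨1 - (starRingEnd ℂ) s, ?_, ?_, ?_, ?_, ?_⟩
    · have hne0 : analyticOrderAt riemannZeta s ≠ 0 := by
        have han : AnalyticAt ℂ riemannZeta s := H370.good_zeta.an s (by linarith)
        rw [Ne, han.analyticOrderAt_eq_zero]
        simpa using hs
      rw [← hsym] at hne0
      have han' : AnalyticAt ℂ riemannZeta (1 - (starRingEnd ℂ) s) :=
        H370.good_zeta.an _ (by simp; linarith)
      by_contra hcon
      exact hne0 (han'.analyticOrderAt_eq_zero.2 hcon)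
    · simp; linarith
    · simp; linarith
    · simpa using him
    · simp; linarith

end H332.FL
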