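import Pool.Agent.H332R2.FL.ZetaRight

open Complex Set Metric Filter Topology MeasureTheory Complex.HadamardThreeLines

namespace H332.FL

/-- `log (|t| + 3)` -/
noncomputable def el (t : ℝ) : ℝ := Real.log (|t| + 3)

lemma one_le_el (t : ℝ) : 1 ≤ el t := by
  unfold el
  rw [Real.le_log_iff_exp_le (by positivity)]
  have := Real.exp_one_lt_d9
  have := abs_nonneg t
  linarith

lemma el_le_add (y T : ℝ) : el y ≤ el T + |y - T| := by
  unfold el
  have h1 : |y| ≤ |T| + |y - T| := by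
    have := abs_add_le T (y - T)
    rwa [add_sub_cancel] at this
  have h2 : |y| + 3 ≤ (|T| + 3) * (1 + |y - T|) := by
    nlinarith [abs_nonneg T, abs_nonneg (y - T)]
  have h3 : Real.log (|y| + 3) ≤ Real.log ((|T| + 3) * (1 + |y - T|)) :=
    Real.log_le_log (by positivity) h2
  rw [Real.log_mul (by positivity) (by positivity)] at h3
  have h4 : Real.log (1 + |y - T|) ≤ |y - T| := by
    have := Real.log_le_sub_one_of_pos (show 0 < 1 + |y - T| by positivity)
    linarith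
  linarith

lemma norm_Z_le {s : ℂ} {t : ℝ} (h1 : 1 / 2 ≤ s.re) (h2 : s.re ≤ 6) (h3 : |s.im| ≤ |t| + 3) :
    Real.log ‖riemannZeta₁ s / (s + 1)‖ ≤ 12 * el t := by
  by_cases h0 : riemannZeta₁ s / (s + 1) = 0
  · rw [h0, norm_zero, Real.log_zero]
    linarith [one_le_el t]
  have h4 := Pool.Agent.H437R2.z1_norm_le h1
  have h5 : ‖s‖ ≤ 9 + |t| := by
    refine (Complex.norm_le_abs_re_add_abs_im s).trans ?_
    rw [abs_of_nonneg (by linarith : (0 : ℝ) ≤ s.re)]
    linarith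
  have h6 : 1 ≤ ‖s + 1‖ := by
    have := (le_abs_self _).trans (Complex.abs_re_le_norm (s + 1))
    simp only [add_re, one_re] at this
    linarith
  have h7 : ‖riemannZeta₁ s / (s + 1)‖ ≤ (|t| + 3) ^ 6 := by
    rw [norm_div]
    refine (div_le_self (norm_nonneg _) h6).trans (h4.trans ?_)
    have ht := abs_nonneg t
    calc 3 * (‖s‖ + 1) ^ 2 ≤ 3 * (9 + |t| + 1) ^ 2 := by gcongr
      _ ≤ (|t| + 3) ^ 6 := by
        have h8 : 9 + |t| + 1 ≤ (|t| + 3) ^ 2 + 1 := by nlinarith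
        have h9 : 9 ≤ (|t| + 3) ^ 2 := by nlinarith
        set x := (|t| + 3) ^ 2 with hx
        have h10 : (|t| + 3) ^ 6 = x ^ 3 := by rw [hx]; ring
        rw [h10]
        have h11 : (9 + |t| + 1) ^ 2 ≤ (x + 1) ^ 2 := by gcongr
        nlinarith [h11, h9, mul_nonneg (sub_nonneg.2 h9) (sq_nonneg x)]
  have h8 : Real.log ‖riemannZeta₁ s / (s + 1)‖ ≤ Real.log ((|t| + 3) ^ 6) :=
    Real.log_le_log (norm_pos_iff.2 h0) h7
  rw [Real.log_pow] at h8
  have h9 := one_le_el t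
  unfold el at h9 ⊢
  push_cast at h8
  linarith

/-- logarithmic bound from Borel–Carathéodory -/
theorem log_bound_log (Θ a : ℝ) (hΘ : 1 / 2 ≤ Θ) (ha : Θ < a) (G : ℂ → ℂ)
    (hG : ∀ s : ℂ, Θ < s.re → DifferentiableAt ℂ G s)
    (hGe : ∀ s : ℂ, Θ < s.re → cexp (G s) = riemannZeta₁ s / (s + 1)) (hΘ2 : Θ < 2) :
    ∃ C : ℝ, 0 < C ∧ ∀ s : ℂ, a ≤ s.re → s.re ≤ 3 → ‖G s‖ ≤ C * el s.im := by
  obtain ⟨K, hK1, hK⟩ := log_bounded_right G (fun s hs => hG s (by linarith))
    (fun s hs => hGe s (by linarith))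
  have haΘ : 0 < a - Θ := by linarith
  refine ⟨(72 + 6 * K) / (a - Θ), by positivity, fun s hs1 hs2 => ?_⟩
  set t := s.im with ht
  set R : ℝ := 3 - Θ with hR
  have hRpos : 0 < R := by rw [hR]; linarith
  set c : ℂ := 3 + t * I with hc
  have hcre : c.re = 3 := by simp [hc]
  have hcim : c.im = t := by simp [hc]
  have hre : ∀ z : ℂ, z ∈ ball (0 : ℂ) R → Θ < (c + z).re := by
    intro z hz
    rw [mem_ball_zero_iff] at hz
    have := (abs_lt.1 ((Complex.abs_re_le_norm z).trans_lt hz)).1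
    rw [add_re, hcre]
    linarith
  set f : ℂ → ℂ := fun z => G (c + z) with hf
  have hfd : DifferentiableOn ℂ f (ball 0 R) := by
    intro z hz
    have h1 : DifferentiableAt ℂ G (c + z) := hG _ (hre z hz)
    exact (h1.comp z (by fun_prop : DifferentiableAt ℂ (fun z => c + z) z)).differentiableWithinAt
  have hel := one_le_el t
  have hmaps : Set.MapsTo f (ball 0 R) {z | z.re ≤ 12 * el t} := by
    intro z hz
    have h1 := hre z hz
    have h2 : (G (c + z)).re = Real.log ‖riemannZeta₁ (c + z) / (c + z + 1)‖ := by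
      rw [← hGe _ h1, Complex.norm_exp, Real.log_exp]
    show (G (c + z)).re ≤ 12 * el t
    rw [h2]
    rw [mem_ball_zero_iff] at hz
    have h3 := (abs_le.1 ((Complex.abs_re_le_norm z).trans hz.le)).2
    have h4 := (Complex.abs_im_le_norm z).trans hz.le
    apply norm_Z_le
    · linarith
    · rw [add_re, hcre]; linarith
    · rw [add_im, hcim]
      refine (abs_add_le _ _).trans ?_
      linarith
  have hz : s - c ∈ ball (0 : ℂ) R := by
    have : s - c = ((s.re - 3 : ℝ) : ℂ) := by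
      apply Complex.ext <;> simp [hc, ht]
    rw [this, mem_ball_zero_iff, Complex.norm_real, Real.norm_eq_abs, abs_lt]
    constructor <;> linarith
  have hzn : ‖s - c‖ ≤ 3 - a := by
    have : s - c = ((s.re - 3 : ℝ) : ℂ) := by
      apply Complex.ext <;> simp [hc, ht]
    rw [this, Complex.norm_real, Real.norm_eq_abs, abs_le]
    constructor <;> linarith
  have hb := borelCaratheodory (M := 12 * el t) (by linarith) hfd hmaps hRpos hz
  have hfs : f (s - c) = G s := by simp [hf]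
  have hf0 : ‖f 0‖ ≤ K := by
    simp only [hf, add_zero]
    exact hK c (by rw [hcre]; norm_num)
  rw [hfs] at hb
  have hden : a - Θ ≤ R - ‖s - c‖ := by linarith
  have hn0 := norm_nonneg (s - c)
  have hn1 := norm_nonneg (f 0)
  calc ‖G s‖ ≤ 2 * (12 * el t) * ‖s - c‖ / (R - ‖s - c‖) +
        ‖f 0‖ * (R + ‖s - c‖) / (R - ‖s - c‖) := hb
    _ ≤ 2 * (12 * el t) * 3 / (a - Θ) + K * (3 + 3) / (a - Θ) := by
        gcongr
        · linarith
        · linarith
        · linarith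
    _ = (72 * el t + 6 * K) / (a - Θ) := by ring
    _ ≤ (72 * el t + 6 * K * el t) / (a - Θ) := by
        apply div_le_div_of_nonneg_right _ haΘ.le
        nlinarith
    _ = (72 + 6 * K) / (a - Θ) * el t := by ring

lemma rpow_small (A ε θ : ℝ) (hA : 0 < A) (hε : 0 < ε) (hθ : 0 < θ) :
    ∃ C : ℝ, 0 < C ∧ ∀ x : ℝ, 1 ≤ x → A * x ^ (1 - θ) ≤ ε * x + C := by
  refine ⟨A * ((A / ε) ^ (1 / θ) + 1), by positivity, fun x hx => ?_⟩
  have hx0 : 0 < x := by linarith
  by_cases h : (A / ε) ^ (1 / θ) ≤ x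
  · -- A ≤ ε x^θ
    have h1 : A / ε ≤ x ^ θ := by
      have h2 := Real.rpow_le_rpow (by positivity) h hθ.le
      rwa [← Real.rpow_mul (by positivity), one_div_mul_cancel hθ.ne', Real.rpow_one] at h2
    have h2 : A ≤ ε * x ^ θ := by
      rw [div_le_iff₀ hε] at h1; linarith
    have h3 : A * x ^ (1 - θ) ≤ ε * x ^ θ * x ^ (1 - θ) := by gcongr
    have h4 : x ^ θ * x ^ (1 - θ) = x := by
      rw [← Real.rpow_add hx0]; simp
    rw [mul_assoc, h4] at h3
    have : 0 ≤ A * ((A / ε) ^ (1 / θ) + 1) := by positivity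
    linarith
  · push Not at h
    have h1 : x ^ (1 - θ) ≤ x := by
      conv_rhs => rw [← Real.rpow_one x]
      exact Real.rpow_le_rpow_of_exponent_le hx (by linarith)
    have h2 : A * x ^ (1 - θ) ≤ A * ((A / ε) ^ (1 / θ) + 1) := by gcongr; linarith
    have : 0 ≤ ε * x := by positivity
    linarith

/-- Littlewood: `log ζ = o(log t)` to the right of all zeros -/
theorem log_bound_small (Θ a σ₁ : ℝ) (hΘ : 1 / 2 ≤ Θ) (ha : Θ < a) (haσ : a < σ₁) (hσ3 : σ₁ < 3)
    (G : ℂ → ℂ)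
    (hG : ∀ s : ℂ, Θ < s.re → DifferentiableAt ℂ G s)
    (hGe : ∀ s : ℂ, Θ < s.re → cexp (G s) = riemannZeta₁ s / (s + 1)) (hΘ2 : Θ < 2)
    (ε : ℝ) (hε : 0 < ε) :
    ∃ C : ℝ, 0 < C ∧ ∀ s : ℂ, σ₁ ≤ s.re → ‖G s‖ ≤ ε * el s.im + C := by
  obtain ⟨K, hK1, hK⟩ := log_bounded_right G (fun s hs => hG s (by linarith))
    (fun s hs => hGe s (by linarith))
  obtain ⟨C, hC, hCb⟩ := log_bound_log Θ a hΘ ha G hG hGe hΘ2
  have ha3 : a < 3 := by linarith
  set θ : ℝ := (σ₁ - a) / (3 - a) with hθ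
  have hθ0 : 0 < θ := div_pos (by linarith) (by linarith)
  set A1 : ℝ := 2 * (C + 1) * Real.exp 9 with hA1
  set A2 : ℝ := K * Real.exp 9 with hA2
  have hexp9 : 1 ≤ Real.exp 9 := Real.one_le_exp (by norm_num)
  have hA1' : 1 ≤ A1 := by
    rw [hA1]; nlinarith
  have hA2' : 1 ≤ A2 := by
    rw [hA2]; nlinarith
  obtain ⟨D, hD, hDb⟩ := rpow_small (A1 * A2) ε θ (by positivity) hε hθ0
  refine ⟨D + K, by linarith, fun s hs => ?_⟩
  have helT := one_le_el s.im
  by_cases hs3 : 3 < s.re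
  · have := hK s (by linarith)
    nlinarith
  push Not at hs3
  set T := s.im with hT
  set w : ℂ → ℂ := fun z => cexp ((z - T * I) ^ 2) with hw
  have hwn : ∀ z : ℂ, ‖w z‖ = Real.exp (z.re ^ 2 - (z.im - T) ^ 2) := by
    intro z
    simp only [hw]
    rw [Complex.norm_exp]
    congr 1
    rw [sq, Complex.mul_re]
    simp
    ring
  set f : ℂ → ℂ := fun z => G z * w z with hf
  have hwd : Differentiable ℂ w := by
    simp only [hw]; fun_prop
  have hfd : DiffContOnCl ℂ f (verticalStrip a 3) := by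
    apply DifferentiableOn.diffContOnCl
    intro z hz
    have hz' : z ∈ re ⁻¹' Icc a 3 := by
      have : closure (verticalStrip a 3) ⊆ re ⁻¹' Icc a 3 := by
        apply closure_minimal
        · exact preimage_mono Ioo_subset_Icc_self
        · exact isClosed_Icc.preimage Complex.continuous_re
      exact this hz
    have hz1 : Θ < z.re := lt_of_lt_of_le ha hz'.1
    exact ((hG z hz1).mul (hwd z)).differentiableWithinAt
  have hmain : ∀ z : ℂ, a ≤ z.re → z.re ≤ 3 → ‖f z‖ ≤ A1 * el T := by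
    intro z hz1 hz2
    have h1 := hCb z hz1 hz2
    have h2 := el_le_add z.im T
    have hzre : 0 ≤ z.re := by linarith
    have h3 : ‖w z‖ ≤ Real.exp 9 * Real.exp (-(z.im - T) ^ 2) := by
      rw [hwn, ← Real.exp_add]
      apply Real.exp_le_exp.2
      nlinarith
    have h4 : (el T + |z.im - T|) * Real.exp (-(z.im - T) ^ 2) ≤ 2 * el T := by
      set u := |z.im - T| with hu
      have hu0 : 0 ≤ u := abs_nonneg _
      have hu2 : (z.im - T) ^ 2 = u ^ 2 := by rw [hu, sq_abs]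
      rw [hu2]
      have h5 : Real.exp (-u ^ 2) ≤ 1 := Real.exp_le_one_iff.2 (by nlinarith)
      have h6 : u * Real.exp (-u ^ 2) ≤ 1 := by
        have h7 : u ≤ Real.exp (u ^ 2) := by
          have := Real.add_one_le_exp (u ^ 2)
          nlinarith [sq_nonneg (u - 1)]
        rw [Real.exp_neg, ← div_eq_mul_inv]
        exact div_le_one_of_le₀ h7 (Real.exp_pos _).le
      have h8 : el T * Real.exp (-u ^ 2) ≤ el T := mul_le_of_le_one_right (by linarith) h5
      nlinarith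
    simp only [hf]
    rw [norm_mul]
    have hE := Real.exp_pos (-(z.im - T) ^ 2)
    calc ‖G z‖ * ‖w z‖ ≤ (C * (el T + |z.im - T|)) * (Real.exp 9 * Real.exp (-(z.im - T) ^ 2)) := by
          apply mul_le_mul (h1.trans (mul_le_mul_of_nonneg_left h2 hC.le)) h3 (norm_nonneg _)
          have := abs_nonneg (z.im - T)
          positivity
      _ = C * Real.exp 9 * ((el T + |z.im - T|) * Real.exp (-(z.im - T) ^ 2)) := by ring
      _ ≤ C * Real.exp 9 * (2 * el T) := by gcongr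
      _ ≤ A1 * el T := by
          rw [hA1]
          nlinarith [mul_pos (Real.exp_pos 9) (show 0 < el T by linarith)]
  have hB : BddAbove ((norm ∘ f) '' verticalClosedStrip a 3) := by
    refine ⟨A1 * el T, ?_⟩
    rintro _ ⟨z, hz, rfl⟩
    exact hmain z hz.1 hz.2
  have hright : ∀ z ∈ re ⁻¹' {(3 : ℝ)}, ‖f z‖ ≤ A2 := by
    intro z hz
    have hz3 : z.re = 3 := hz
    simp only [hf]
    rw [norm_mul, hwn, hz3]
    have h1 := hK z (by rw [hz3]; norm_num)
    have h2 : Real.exp (3 ^ 2 - (z.im - T) ^ 2) ≤ Real.exp 9 := by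
      apply Real.exp_le_exp.2
      nlinarith [sq_nonneg (z.im - T)]
    rw [hA2]
    exact mul_le_mul h1 h2 (Real.exp_pos _).le (by linarith)
  have hleft : ∀ z ∈ re ⁻¹' {a}, ‖f z‖ ≤ A1 * el T := by
    intro z hz
    have hza : z.re = a := hz
    exact hmain z hza.ge (by linarith)
  have hsmem : s ∈ verticalClosedStrip a 3 := ⟨by linarith, hs3⟩
  have h3l := norm_le_interp_of_mem_verticalClosedStrip' ha3 hsmem hfd hB hleft hright
  set τ : ℝ := (s.re - a) / (3 - a) with hτ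
  have hτθ : θ ≤ τ := by
    rw [hθ, hτ]
    apply div_le_div_of_nonneg_right (by linarith) (by linarith)
  have hτ1 : τ ≤ 1 := by
    rw [hτ, div_le_one (by linarith)]
    linarith
  have hfs : ‖G s‖ ≤ ‖f s‖ := by
    simp only [hf]
    rw [norm_mul, hwn]
    have : 1 ≤ Real.exp (s.re ^ 2 - (s.im - T) ^ 2) := by
      apply Real.one_le_exp
      rw [hT]
      simp
      positivity
    nlinarith [norm_nonneg (G s)]
  have h5 : (A1 * el T) ^ (1 - τ) * A2 ^ τ ≤ (A1 * A2) * (el T) ^ (1 - θ) := by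
    rw [Real.mul_rpow (by linarith) (by linarith)]
    have e1 : A1 ^ (1 - τ) ≤ A1 := by
      conv_rhs => rw [← Real.rpow_one A1]
      exact Real.rpow_le_rpow_of_exponent_le hA1' (by linarith)
    have e2 : (el T) ^ (1 - τ) ≤ (el T) ^ (1 - θ) :=
      Real.rpow_le_rpow_of_exponent_le helT (by linarith)
    have e3 : A2 ^ τ ≤ A2 := by
      conv_rhs => rw [← Real.rpow_one A2]
      exact Real.rpow_le_rpow_of_exponent_le hA2' hτ1
    have p0 : 0 < el T := by linarith
    calc A1 ^ (1 - τ) * (el T) ^ (1 - τ) * A2 ^ τ ≤ A1 * (el T) ^ (1 - θ) * A2 := by gcongr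
      _ = (A1 * A2) * (el T) ^ (1 - θ) := by ring
  have h6 := hDb (el T) helT
  linarith

/-- **Littlewood's bound**: to the right of all zeros `ζ₁(s)/(s+1)` and its inverse are `≪ |t|^ε` -/
theorem littlewood (Θ σ₁ : ℝ) (hΘ : 1 / 2 ≤ Θ) (hΘ2 : Θ < 2) (hσ : Θ < σ₁)
    (h0 : ∀ s : ℂ, Θ < s.re → riemannZeta₁ s ≠ 0) (ε : ℝ) (hε : 0 < ε) :
    ∃ C : ℝ, 0 < C ∧ ∀ s : ℂ, σ₁ ≤ s.re →
      ‖riemannZeta₁ s / (s + 1)‖ ≤ C * (|s.im| + 3) ^ ε ∧
      ‖(riemannZeta₁ s / (s + 1))⁻¹‖ ≤ C * (|s.im| + 3) ^ ε := by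
  have hs1 : ∀ s : ℂ, Θ < s.re → s + 1 ≠ 0 := by
    intro s hs h
    have := congrArg Complex.re h
    simp at this
    linarith
  obtain ⟨G, hGd, hGe⟩ := hp_log Θ (fun s => riemannZeta₁ s / (s + 1))
    (fun s hs => (DifferentiableAt.fun_div (differentiable_riemannZeta₁ s) (by fun_prop)
      (hs1 s hs)).differentiableWithinAt)
    (fun s hs => div_ne_zero (h0 s hs) (hs1 s hs))
  have hGd' : ∀ s : ℂ, Θ < s.re → DifferentiableAt ℂ G s := fun s hs => (hGd s hs).differentiableAt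
  set σ₂ : ℝ := min σ₁ 2 with hσ₂
  have hσ₂Θ : Θ < σ₂ := lt_min hσ hΘ2
  have hσ₂2 : σ₂ ≤ 2 := min_le_right _ _
  obtain ⟨C, hC, hCb⟩ := log_bound_small Θ ((Θ + σ₂) / 2) σ₂ hΘ (by linarith) (by linarith)
    (by linarith) G hGd' hGe hΘ2 ε hε
  refine ⟨Real.exp C, Real.exp_pos _, fun s hs => ?_⟩
  have hs2 : σ₂ ≤ s.re := (min_le_left _ _).trans hs
  have hsΘ : Θ < s.re := by linarith
  have hb := hCb s hs2
  have hpow : Real.exp (ε * el s.im + C) = Real.exp C * (|s.im| + 3) ^ ε := by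
    rw [Real.rpow_def_of_pos (by positivity), ← Real.exp_add]
    unfold el
    congr 1
    ring
  have h1 : ‖cexp (G s)‖ ≤ Real.exp (ε * el s.im + C) := by
    rw [Complex.norm_exp]
    exact Real.exp_le_exp.2 (((le_abs_self _).trans (Complex.abs_re_le_norm _)).trans hb)
  have h2 : ‖(cexp (G s))⁻¹‖ ≤ Real.exp (ε * el s.im + C) := by
    rw [← Complex.exp_neg, Complex.norm_exp]
    apply Real.exp_le_exp.2
    have := (le_abs_self _).trans (Complex.abs_re_le_norm (-G s))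
    rw [norm_neg] at this
    exact this.trans hb
  rw [hGe s hsΘ, hpow] at h1 h2
  exact ⟨h1, h2⟩

end H332.FL
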