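import Mathlib

open Complex Set Metric Filter Topology MeasureTheory

namespace H332.FL

lemma hp_open (a : ℝ) : IsOpen {s : ℂ | a < s.re} := isOpen_lt continuous_const Complex.continuous_re

lemma mem_ball_of_large {a : ℝ} {s : ℂ} (hs : a < s.re) {R : ℝ}
    (hR : ((s.re - a) ^ 2 + s.im ^ 2) / (2 * (s.re - a)) < R) : s ∈ ball ((a + R : ℝ) : ℂ) R := by
  have hpos : 0 < s.re - a := by linarith
  have hR0 : 0 < R := lt_of_le_of_lt (by positivity) hR
  rw [div_lt_iff₀ (by positivity)] at hR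
  rw [mem_ball, dist_eq, ← sq_lt_sq₀ (norm_nonneg _) hR0.le]
  rw [Complex.sq_norm, Complex.normSq_apply]
  simp only [sub_re, sub_im, ofReal_re, ofReal_im]
  nlinarith

lemma ball_sub_hp {a R : ℝ} {z : ℂ} (hz : z ∈ ball ((a + R : ℝ) : ℂ) R) : a < z.re := by
  rw [mem_ball, dist_eq] at hz
  have h1 := (abs_le.1 ((Complex.abs_re_le_norm _).trans hz.le)).1
  have h2 := Complex.abs_re_le_norm (z - ((a + R : ℝ) : ℂ))
  have h3 : |(z - ((a + R : ℝ) : ℂ)).re| < R := lt_of_le_of_lt h2 hz
  have h4 := (abs_lt.1 h3).1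
  simp only [sub_re, ofReal_re] at h4
  linarith

/-- holomorphic functions on a half plane have primitives -/
theorem hp_primitive (a : ℝ) (f : ℂ → ℂ) (hf : DifferentiableOn ℂ f {s | a < s.re}) :
    ∃ g : ℂ → ℂ, ∀ s : ℂ, a < s.re → HasDerivAt g (f s) s := by
  refine ⟨fun w => wedgeIntegral ((a + 1 : ℝ) : ℂ) w f, fun s hs => ?_⟩
  obtain ⟨R, hR⟩ : ∃ R : ℝ, ((s.re - a) ^ 2 + s.im ^ 2) / (2 * (s.re - a)) < R ∧ 1 < R :=
    ⟨max _ 1 + 1, (le_max_left _ _).trans_lt (lt_add_one _), (le_max_right _ _).trans_lt (lt_add_one _)⟩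
  have hsB := mem_ball_of_large hs hR.1
  have hfB : DifferentiableOn ℂ f (ball ((a + R : ℝ) : ℂ) R) := hf.mono fun z hz => ball_sub_hp hz
  have hcons := hfB.isConservativeOn
  have hder := hcons.hasDerivAt_wedgeIntegral hfB.continuousOn hsB
  have hcont : ∀ x y : ℝ, a < x → a < y →
      IntervalIntegrable (fun t : ℝ => f ((t : ℂ) + ((0 : ℝ) : ℂ) * I)) volume x y := by
    intro x y hx hy
    refine ContinuousOn.intervalIntegrable ?_
    refine hf.continuousOn.comp (by fun_prop) ?_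
    intro t ht
    have : a < t := by
      rcases le_total x y with h | h
      · rw [uIcc_of_le h] at ht; exact lt_of_lt_of_le hx ht.1
      · rw [uIcc_of_ge h] at ht; exact lt_of_lt_of_le hy ht.1
    simpa using this
  have heq : (fun w => wedgeIntegral ((a + 1 : ℝ) : ℂ) w f) =ᶠ[𝓝 s]
      fun w => (∫ t : ℝ in (a + 1)..(a + R), f ((t : ℂ) + ((0 : ℝ) : ℂ) * I)) +
        wedgeIntegral ((a + R : ℝ) : ℂ) w f := by
    filter_upwards [(hp_open a).mem_nhds hs] with w hw
    unfold wedgeIntegral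
    simp only [ofReal_re, ofReal_im]
    rw [← add_assoc]
    congr 1
    rw [intervalIntegral.integral_add_adjacent_intervals]
    · exact hcont _ _ (by linarith) (by linarith [hR.2])
    · exact hcont _ _ (by linarith [hR.2]) hw
  exact (hder.const_add _).congr_of_eventuallyEq heq

/-- a function with zero derivative on a half plane is constant -/
lemma hp_const (a : ℝ) (f : ℂ → ℂ) (hf : ∀ s : ℂ, a < s.re → HasDerivAt f 0 s) {x y : ℂ}
    (hx : a < x.re) (hy : a < y.re) : f x = f y := by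
  have hconv : Convex ℝ {s : ℂ | a < s.re} := convex_halfSpace_re_gt a
  refine IsOpen.is_const_of_deriv_eq_zero (𝕜 := ℂ) (hp_open a) hconv.isPreconnected
    (fun s hs => (hf s hs).differentiableAt.differentiableWithinAt) (fun s hs => (hf s hs).deriv)
    hx hy

/-- holomorphic logarithm on a half plane -/
theorem hp_log (a : ℝ) (f : ℂ → ℂ) (hf : DifferentiableOn ℂ f {s | a < s.re})
    (hne : ∀ s : ℂ, a < s.re → f s ≠ 0) :
    ∃ g : ℂ → ℂ, (∀ s : ℂ, a < s.re → HasDerivAt g (deriv f s / f s) s) ∧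
      ∀ s : ℂ, a < s.re → cexp (g s) = f s := by
  have hfd : ∀ s : ℂ, a < s.re → HasDerivAt f (deriv f s) s := fun s hs =>
    (hf.differentiableAt ((hp_open a).mem_nhds hs)).hasDerivAt
  have hd : DifferentiableOn ℂ (fun s => deriv f s / f s) {s | a < s.re} :=
    (hf.deriv (hp_open a)).div hf hne
  obtain ⟨g0, hg0⟩ := hp_primitive a _ hd
  set c : ℂ := ((a + 1 : ℝ) : ℂ) with hc
  have hca : a < c.re := by simp [hc]
  have hconst : ∀ s : ℂ, a < s.re → f s * cexp (-g0 s) = f c * cexp (-g0 c) := by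
    intro s hs
    refine hp_const a (fun s => f s * cexp (-g0 s)) (fun s hs => ?_) hs hca
    have h1 := (hfd s hs).mul ((hg0 s hs).neg.cexp)
    refine h1.congr_deriv ?_
    have h2 : f s * (deriv f s / f s) = deriv f s := mul_div_cancel₀ _ (hne s hs)
    linear_combination (-cexp (-g0 s)) * h2
  have hcne : f c * cexp (-g0 c) ≠ 0 := mul_ne_zero (hne c hca) (Complex.exp_ne_zero _)
  refine ⟨fun s => g0 s + Complex.log (f c * cexp (-g0 c)), fun s hs => (hg0 s hs).add_const _,
    fun s hs => ?_⟩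
  rw [Complex.exp_add, Complex.exp_log hcne, ← hconst s hs]
  rw [mul_comm (f s), ← mul_assoc, ← Complex.exp_add]
  simp

end H332.FL
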