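import Mathlib

open MeasureTheory Set

namespace H332.FL

/-- the sawtooth `{x} - 1/2` -/
noncomputable def sw (x : ℝ) : ℝ := Int.fract x - 1 / 2

lemma sw_add_int (x : ℝ) (m : ℤ) : sw (x + m) = sw x := by
  unfold sw; rw [Int.fract_add_intCast]

lemma sw_add_nat (x : ℝ) (m : ℕ) : sw (x + m) = sw x := by
  unfold sw; rw [Int.fract_add_natCast]

lemma abs_sw_le (x : ℝ) : |sw x| ≤ 1 / 2 := by
  unfold sw
  rw [abs_le]
  have := Int.fract_nonneg x
  have := (Int.fract_lt_one x).le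
  constructor <;> linarith

lemma measurable_sw : Measurable sw := by
  unfold sw
  exact measurable_fract.sub_const _

lemma sw_of_mem {x : ℝ} (h0 : 0 ≤ x) (h1 : x < 1) : sw x = x - 1 / 2 := by
  unfold sw
  rw [Int.fract_eq_self.2 ⟨h0, h1⟩]

lemma sw_distr_per (m : ℕ) (hm : 0 < m) (x : ℝ) :
    ∑ k ∈ Finset.range m, sw ((x + 1 + k) / m) = ∑ k ∈ Finset.range m, sw ((x + k) / m) := by
  have hm0 : (m : ℝ) ≠ 0 := by exact_mod_cast hm.ne'
  have h1 := Finset.sum_range_succ' (fun k : ℕ => sw ((x + k) / m)) m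
  have h2 := Finset.sum_range_succ (fun k : ℕ => sw ((x + k) / m)) m
  rw [h1] at h2
  have h3 : sw ((x + (m : ℕ)) / m) = sw ((x + ((0 : ℕ) : ℝ)) / m) := by
    have : (x + (m : ℝ)) / m = (x + ((0 : ℕ) : ℝ)) / m + (1 : ℕ) := by
      field_simp
      push_cast
      ring
    rw [this, sw_add_nat]
  rw [h3] at h2
  have h4 := add_right_cancel h2
  rw [← h4]
  refine Finset.sum_congr rfl fun k _ => ?_
  congr 2
  push_cast
  ring

/-- distribution relation of the sawtooth -/
lemma sw_distr (m : ℕ) (hm : 0 < m) (x : ℝ) :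
    ∑ k ∈ Finset.range m, sw ((x + k) / m) = sw x := by
  have hm0 : (0 : ℝ) < m := by exact_mod_cast hm
  have hper : Function.Periodic (fun x : ℝ => ∑ k ∈ Finset.range m, sw ((x + k) / m)) 1 :=
    fun x => sw_distr_per m hm x
  have h1 := hper.int_mul (-⌊x⌋) x
  have h2 : x + ((-⌊x⌋ : ℤ) : ℝ) * 1 = Int.fract x := by
    push_cast
    rw [← Int.self_sub_floor]
    ring
  rw [h2] at h1
  rw [← h1]
  have hf0 := Int.fract_nonneg x
  have hf1 := Int.fract_lt_one x
  have h3 : ∀ k ∈ Finset.range m, sw ((Int.fract x + k) / m) = (Int.fract x + k) / m - 1 / 2 := by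
    intro k hk
    rw [Finset.mem_range] at hk
    have hk' : (k : ℝ) + 1 ≤ m := by exact_mod_cast hk
    apply sw_of_mem
    · positivity
    · rw [div_lt_one hm0]; linarith
  show ∑ k ∈ Finset.range m, sw ((Int.fract x + k) / m) = sw x
  rw [Finset.sum_congr rfl h3]
  rw [Finset.sum_sub_distrib, ← Finset.sum_div, Finset.sum_add_distrib]
  simp only [Finset.sum_const, Finset.card_range, nsmul_eq_mul]
  have h4 : (∑ k ∈ Finset.range m, (k : ℝ)) * 2 = m * (m - 1) := by
    have := Finset.sum_range_id_mul_two m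
    have h5 : ((∑ k ∈ Finset.range m, k : ℕ) : ℝ) * 2 = (m : ℝ) * ((m - 1 : ℕ) : ℝ) := by
      exact_mod_cast this
    rw [Nat.cast_sub hm] at h5
    push_cast at h5
    exact h5
  have h6 : (∑ k ∈ Finset.range m, (k : ℝ)) = m * (m - 1) / 2 := by linarith
  rw [h6]
  unfold sw
  field_simp
  ring

lemma sw_perm (a b : ℕ) (hb : 0 < b) (hab : Nat.Coprime a b) (y : ℝ) :
    ∑ k ∈ Finset.range b, sw ((y + a * k) / b) = ∑ k ∈ Finset.range b, sw ((y + k) / b) := by
  have hb0 : (b : ℝ) ≠ 0 := by exact_mod_cast hb.ne'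
  have hinj : Set.InjOn (fun k => a * k % b) (Finset.range b : Set ℕ) := by
    intro k hk l hl hkl
    simp only [Finset.coe_range, Set.mem_Iio] at hk hl
    have h1 : a * k ≡ a * l [MOD b] := hkl
    have h2 : k ≡ l [MOD b] := Nat.ModEq.cancel_left_of_coprime (by rw [Nat.gcd_comm]; exact hab) h1
    have h3 : k % b = l % b := h2
    rwa [Nat.mod_eq_of_lt hk, Nat.mod_eq_of_lt hl] at h3
  refine Finset.sum_nbij (fun k => a * k % b) ?_ hinj ?_ ?_
  · intro k _
    rw [Finset.mem_range]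
    exact Nat.mod_lt _ hb
  · refine Finset.surjOn_of_injOn_of_card_le _ ?_ hinj le_rfl
    intro k _
    simp only [Finset.coe_range, Set.mem_Iio]
    exact Nat.mod_lt _ hb
  · intro k _
    have h1 : (a : ℝ) * k = (b : ℝ) * ((a * k / b : ℕ) : ℝ) + ((a * k % b : ℕ) : ℝ) := by
      have := Nat.div_add_mod (a * k) b
      exact_mod_cast this.symm
    have h2 : (y + a * k) / b = (y + ((a * k % b : ℕ) : ℝ)) / b + ((a * k / b : ℕ) : ℝ) := by
      rw [h1]
      field_simp
      ring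
    rw [h2, sw_add_nat]

/-- correlation integrals -/
noncomputable def JJ (a b : ℕ) : ℝ := ∫ t in (0 : ℝ)..1, sw (a * t) * sw (b * t)

lemma JJ_comm (a b : ℕ) : JJ a b = JJ b a := by
  unfold JJ
  congr 1
  ext t
  ring

lemma measurable_sw_comp {f : ℝ → ℝ} (hf : Measurable f) : Measurable fun t => sw (f t) :=
  measurable_sw.comp hf

lemma ii_prod {f g : ℝ → ℝ} (hf : Measurable f) (hg : Measurable g) (x y : ℝ) :
    IntervalIntegrable (fun t => sw (f t) * sw (g t)) volume x y := by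
  have h1 : ∀ t, ‖sw (f t) * sw (g t)‖ ≤ 1 / 4 := by
    intro t
    rw [norm_mul, Real.norm_eq_abs, Real.norm_eq_abs]
    calc |sw (f t)| * |sw (g t)| ≤ (1 / 2) * (1 / 2) :=
          mul_le_mul (abs_sw_le _) (abs_sw_le _) (abs_nonneg _) (by norm_num)
      _ = 1 / 4 := by norm_num
  refine (intervalIntegrable_const (c := (1 / 4 : ℝ))).mono_fun ?_ ?_
  · exact ((measurable_sw_comp hf).mul (measurable_sw_comp hg)).aestronglyMeasurable
  · refine Filter.Eventually.of_forall fun t => ?_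
    rw [Real.norm_of_nonneg (by norm_num : (0 : ℝ) ≤ 1 / 4)]
    exact h1 t

lemma JJ_mul_left (g a b : ℕ) (hg : 0 < g) : JJ (g * a) (g * b) = JJ a b := by
  have hg0 : (g : ℝ) ≠ 0 := by exact_mod_cast hg.ne'
  unfold JJ
  set F : ℝ → ℝ := fun t => sw (a * t) * sw (b * t) with hF
  have hper : Function.Periodic F 1 := by
    intro t
    simp only [hF]
    rw [mul_add, mul_add, mul_one, mul_one, sw_add_nat, sw_add_nat]
  have h1 : (fun t : ℝ => sw (((g * a : ℕ) : ℝ) * t) * sw (((g * b : ℕ) : ℝ) * t)) = fun t => F (g * t) := by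
    ext t
    simp only [hF]
    push_cast
    ring_nf
  rw [h1, intervalIntegral.integral_comp_mul_left F hg0]
  have h2 : ∀ m : ℕ, ∫ t in (0 : ℝ)..m, F t = m * ∫ t in (0 : ℝ)..1, F t := by
    intro m
    have h3 : ∀ k < m, IntervalIntegrable F volume ((k : ℕ) : ℝ) ((k + 1 : ℕ) : ℝ) := by
      intro k _
      exact ii_prod (by fun_prop) (by fun_prop) _ _
    have h4 := intervalIntegral.sum_integral_adjacent_intervals h3
    simp only [Nat.cast_zero] at h4
    rw [← h4]
    have h5 : ∀ k ∈ Finset.range m, ∫ t in ((k : ℕ) : ℝ)..((k + 1 : ℕ) : ℝ), F t = ∫ t in (0 : ℝ)..1, F t := by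
      intro k _
      have h6 := hper.intervalIntegral_add_eq (k : ℝ) 0
      rw [zero_add] at h6
      push_cast
      exact h6
    rw [Finset.sum_congr rfl h5]
    simp
  rw [mul_zero, mul_one, h2 g, smul_eq_mul, ← mul_assoc, inv_mul_cancel₀ hg0, one_mul]

lemma JJ_coprime (a b : ℕ) (hb : 0 < b) (hab : Nat.Coprime a b) : JJ a b = (1 / b) * JJ a 1 := by
  have hb0 : (b : ℝ) ≠ 0 := by exact_mod_cast hb.ne'
  unfold JJ
  have h1 := intervalIntegral.integral_comp_div (a := 0) (b := b)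
    (fun t : ℝ => sw (a * t) * sw (b * t)) hb0
  rw [zero_div, div_self hb0, smul_eq_mul] at h1
  have h2 : ∫ t in (0 : ℝ)..1, sw (a * t) * sw (b * t) =
      (1 / b) * ∫ x in (0 : ℝ)..b, sw (a * (x / b)) * sw (b * (x / b)) := by
    rw [h1, ← mul_assoc, one_div_mul_cancel hb0, one_mul]
  rw [h2]
  congr 1
  set h : ℝ → ℝ := fun x => sw (a * (x / b)) * sw (b * (x / b)) with hh
  have h3 : ∀ k < b, IntervalIntegrable h volume ((k : ℕ) : ℝ) ((k + 1 : ℕ) : ℝ) := by
    intro k _
    exact ii_prod (by fun_prop) (by fun_prop) _ _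
  have h4 := intervalIntegral.sum_integral_adjacent_intervals h3
  simp only [Nat.cast_zero] at h4
  rw [← h4]
  have h5 : ∀ k ∈ Finset.range b, ∫ x in ((k : ℕ) : ℝ)..((k + 1 : ℕ) : ℝ), h x =
      ∫ x in (0 : ℝ)..1, sw ((a * x + a * k) / b) * sw x := by
    intro k _
    have h6 := intervalIntegral.integral_comp_add_right (a := 0) (b := 1) h (k : ℝ)
    rw [zero_add, add_comm (1 : ℝ)] at h6
    push_cast
    rw [← h6]
    refine intervalIntegral.integral_congr fun x _ => ?_
    simp only [hh]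
    have e1 : (b : ℝ) * ((x + k) / b) = x + k := by field_simp
    have e2 : (a : ℝ) * ((x + k) / b) = (a * x + a * k) / b := by ring
    rw [e1, e2, sw_add_nat]
  rw [Finset.sum_congr rfl h5, ← intervalIntegral.integral_finsetSum]
  · refine intervalIntegral.integral_congr fun x _ => ?_
    rw [← Finset.sum_mul, sw_perm a b hb hab, sw_distr b hb]
    simp
  · intro k _
    exact ii_prod (by fun_prop) (by fun_prop) _ _

lemma JJ_one_one : JJ 1 1 = 1 / 12 := by
  unfold JJ
  have h1 : ∫ t in (0 : ℝ)..1, sw ((1 : ℕ) * t) * sw ((1 : ℕ) * t) = ∫ t in (0 : ℝ)..1, (t - 1 / 2) ^ 2 := by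
    rw [intervalIntegral.integral_of_le zero_le_one, intervalIntegral.integral_of_le zero_le_one,
      integral_Ioc_eq_integral_Ioo, integral_Ioc_eq_integral_Ioo]
    refine setIntegral_congr_fun measurableSet_Ioo fun t ht => ?_
    simp only [Nat.cast_one, one_mul]
    rw [sw_of_mem ht.1.le ht.2]
    ring
  rw [h1]
  have h2 := intervalIntegral.integral_comp_sub_right (a := 0) (b := 1) (fun t : ℝ => t ^ 2) (1 / 2 : ℝ)
  rw [h2, integral_pow]
  norm_num

theorem JJ_eq (a b : ℕ) (ha : 0 < a) (hb : 0 < b) :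
    JJ a b = (Nat.gcd a b : ℝ) ^ 2 / (12 * a * b) := by
  set g := Nat.gcd a b with hg
  have hgpos : 0 < g := Nat.gcd_pos_of_pos_left b ha
  obtain ⟨a', ha'⟩ : g ∣ a := Nat.gcd_dvd_left a b
  obtain ⟨b', hb'⟩ : g ∣ b := Nat.gcd_dvd_right a b
  have hcop : Nat.Coprime a' b' := by
    have := Nat.gcd_mul_left g a' b'
    rw [← ha', ← hb', ← hg] at this
    have h1 : g * 1 = g * Nat.gcd a' b' := by rw [mul_one]; exact this
    exact (Nat.eq_of_mul_eq_mul_left hgpos h1).symm
  have ha0 : 0 < a' := by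
    rcases Nat.eq_zero_or_pos a' with h | h
    · rw [h] at ha'; simp at ha'; omega
    · exact h
  have hb0 : 0 < b' := by
    rcases Nat.eq_zero_or_pos b' with h | h
    · rw [h] at hb'; simp at hb'; omega
    · exact h
  have h1 : JJ a b = JJ a' b' := by
    rw [ha', hb', JJ_mul_left g a' b' hgpos]
  have h2 : JJ a' 1 = 1 / a' * JJ 1 1 := by
    rw [JJ_comm a' 1, JJ_coprime 1 a' ha0 (Nat.coprime_one_left a')]
  rw [h1, JJ_coprime a' b' hb0 hcop, h2, JJ_one_one, ha', hb']
  have e1 : (a' : ℝ) ≠ 0 := by exact_mod_cast ha0.ne'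
  have e2 : (b' : ℝ) ≠ 0 := by exact_mod_cast hb0.ne'
  have e3 : (g : ℝ) ≠ 0 := by exact_mod_cast hgpos.ne'
  push_cast
  field_simp

end H332.FL
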