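import Pool.Agent.H332R2.FL.LogHalf
import Pool.Agent.H437R2.A1

open Complex Set Metric Filter Topology MeasureTheory

namespace H332.FL

lemma zeta_sub_one_le {s : ℂ} (hs : 2 < s.re) : ‖riemannZeta s - 1‖ ≤ 2 / 3 := by
  have hz : riemannZeta s = ∑' n : ℕ, 1 / ((n : ℂ) + 1) ^ s :=
    zeta_eq_tsum_one_div_nat_add_one_cpow (by linarith)
  have hn : ∀ n : ℕ, ‖1 / ((n : ℂ) + 1) ^ s‖ ≤ 1 / ((n : ℝ) + 1) ^ 2 := by
    intro n
    have : ((n : ℂ) + 1) = (((n : ℝ) + 1 : ℝ) : ℂ) := by push_cast; ring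
    rw [norm_div, norm_one, this, Complex.norm_cpow_eq_rpow_re_of_pos (by positivity)]
    have h1 : ((n : ℝ) + 1) ^ (2 : ℝ) ≤ ((n : ℝ) + 1) ^ s.re :=
      Real.rpow_le_rpow_of_exponent_le (by linarith [Nat.cast_nonneg (α := ℝ) n]) hs.le
    rw [Real.rpow_two] at h1
    exact one_div_le_one_div_of_le (by positivity) h1
  have hsum : HasSum (fun n : ℕ => 1 / ((n : ℝ) + 1) ^ 2) (Real.pi ^ 2 / 6) := by
    have h := (hasSum_nat_add_iff' (f := fun n : ℕ => 1 / (n : ℝ) ^ 2) 1).2 hasSum_zeta_two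
    simpa using h
  have hsm : Summable (fun n : ℕ => 1 / ((n : ℂ) + 1) ^ s) :=
    Summable.of_norm_bounded hsum.summable hn
  have hsplit : riemannZeta s - 1 = ∑' n : ℕ, 1 / (((n + 1 : ℕ) : ℂ) + 1) ^ s := by
    rw [hz, hsm.tsum_eq_zero_add]
    simp
  rw [hsplit]
  have h1 : HasSum (fun n : ℕ => 1 / (((n + 1 : ℕ) : ℝ) + 1) ^ 2) (Real.pi ^ 2 / 6 - 1) := by
    have h := (hasSum_nat_add_iff' (f := fun n : ℕ => 1 / ((n : ℝ) + 1) ^ 2) 1).2 hsum
    simpa using h
  have htail := tsum_of_norm_bounded h1 (fun n => (hn (n + 1)))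
  refine htail.trans ?_
  have := Real.pi_lt_d4
  have := Real.pi_pos
  nlinarith

/-- principal logarithm of `ζ(s) (s-1)/(s+1)` to the right of `2` -/
noncomputable def PP (s : ℂ) : ℂ := Complex.log (riemannZeta s) + Complex.log ((s - 1) / (s + 1))

lemma one_ne_of_re {s : ℂ} (hs : 1 < s.re) : s ≠ 1 := by
  rintro rfl
  simp at hs

lemma zeta_re_pos {s : ℂ} (hs : 2 < s.re) : 0 < (riemannZeta s).re := by
  have h1 := zeta_sub_one_le hs
  have h2 := (abs_le.1 ((Complex.abs_re_le_norm (riemannZeta s - 1)).trans h1)).1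
  simp only [sub_re, one_re] at h2
  linarith

lemma quot_re_pos {s : ℂ} (hs : 2 < s.re) : 0 < ((s - 1) / (s + 1)).re := by
  have hne : 0 < Complex.normSq (s + 1) := by
    rw [Complex.normSq_pos]
    intro h
    have := congrArg Complex.re h
    simp at this
    linarith
  rw [Complex.div_re, ← add_div]
  apply div_pos _ hne
  simp only [sub_re, add_re, one_re, sub_im, add_im, one_im]
  nlinarith [sq_nonneg s.im]

lemma PP_diff {s : ℂ} (hs : 2 < s.re) : DifferentiableAt ℂ PP s := by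
  have h1 : DifferentiableAt ℂ riemannZeta s := differentiableAt_riemannZeta (one_ne_of_re (by linarith))
  have h2 : s + 1 ≠ 0 := by
    intro h
    have := congrArg Complex.re h
    simp at this
    linarith
  have h3 : DifferentiableAt ℂ (fun s : ℂ => (s - 1) / (s + 1)) s := by
    exact DifferentiableAt.fun_div (by fun_prop) (by fun_prop) h2
  unfold PP
  exact (h1.clog (Or.inl (zeta_re_pos hs))).add (h3.clog (Or.inl (quot_re_pos hs)))

lemma exp_PP {s : ℂ} (hs : 2 < s.re) : cexp (PP s) = riemannZeta₁ s / (s + 1) := by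
  unfold PP
  have h0 : riemannZeta s ≠ 0 := by
    intro h
    have := zeta_re_pos hs
    rw [h] at this
    simp at this
  have h1 : (s - 1) / (s + 1) ≠ 0 := by
    intro h
    have := quot_re_pos hs
    rw [h] at this
    simp at this
  rw [Complex.exp_add, Complex.exp_log h0, Complex.exp_log h1,
    Pool.Agent.H437R2.z1_of_ne (one_ne_of_re (by linarith))]
  ring

lemma norm_log_le_of {w : ℂ} (h1 : 1 / 3 ≤ ‖w‖) (h2 : ‖w‖ ≤ 1) : ‖Complex.log w‖ ≤ 6 := by
  have h3 : ‖Complex.log w‖ ≤ |(Complex.log w).re| + |(Complex.log w).im| :=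
    Complex.norm_le_abs_re_add_abs_im _
  rw [Complex.log_re, Complex.log_im] at h3
  have h4 : |w.arg| ≤ Real.pi := Complex.abs_arg_le_pi w
  have h5 : |Real.log ‖w‖| ≤ 2 := by
    rw [abs_of_nonpos (Real.log_nonpos (norm_nonneg _) h2)]
    have h6 : Real.log (1 / 3) ≤ Real.log ‖w‖ := Real.log_le_log (by norm_num) h1
    have h7 : Real.log (1 / 3) = - Real.log 3 := by rw [one_div, Real.log_inv]
    have h8 : Real.log 3 ≤ 3 - 1 := Real.log_le_sub_one_of_pos (by norm_num)
    linarith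
  have := Real.pi_lt_d2
  linarith

lemma PP_bound {s : ℂ} (hs : 2 < s.re) : ‖PP s‖ ≤ 8 := by
  have h1 := zeta_sub_one_le hs
  have h2 : ‖Complex.log (riemannZeta s)‖ ≤ 4 / 3 := by
    have h := Complex.norm_log_one_add_le (z := riemannZeta s - 1) (by linarith)
    rw [add_sub_cancel] at h
    refine h.trans ?_
    have h3 : (1 - ‖riemannZeta s - 1‖)⁻¹ ≤ 3 := by
      rw [inv_le_comm₀ (by linarith) (by norm_num)]
      linarith
    have h0 := norm_nonneg (riemannZeta s - 1)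
    have h0' : 0 ≤ (1 - ‖riemannZeta s - 1‖)⁻¹ := inv_nonneg.2 (by linarith)
    calc ‖riemannZeta s - 1‖ ^ 2 * (1 - ‖riemannZeta s - 1‖)⁻¹ / 2 + ‖riemannZeta s - 1‖
        ≤ (2 / 3) ^ 2 * 3 / 2 + 2 / 3 := by gcongr
      _ = 4 / 3 := by norm_num
  have h3 : ‖Complex.log ((s - 1) / (s + 1))‖ ≤ 6 := by
    have hs1 : 1 ≤ ‖s - 1‖ := by
      have := (le_abs_self _).trans (Complex.abs_re_le_norm (s - 1))
      simp only [sub_re, one_re] at this
      linarith
    have hs2 : ‖s + 1‖ ≤ ‖s - 1‖ + 2 := by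
      have : s + 1 = (s - 1) + 2 := by ring
      rw [this]
      refine (norm_add_le _ _).trans ?_
      simp
    have hs3 : ‖s - 1‖ ≤ ‖s + 1‖ := by
      rw [← sq_le_sq₀ (norm_nonneg _) (norm_nonneg _), Complex.sq_norm, Complex.sq_norm,
        Complex.normSq_apply, Complex.normSq_apply]
      simp only [sub_re, add_re, one_re, sub_im, add_im, one_im]
      nlinarith
    apply norm_log_le_of
    · rw [norm_div, div_le_div_iff₀ (by norm_num) (by linarith)]
      linarith
    · rw [norm_div]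
      exact div_le_one_of_le₀ hs3 (norm_nonneg _)
  unfold PP
  refine (norm_add_le _ _).trans ?_
  linarith

/-- if `exp h = 1` on a half plane then `h` is constant there -/
lemma hp_exp_one (a : ℝ) (h : ℂ → ℂ) (hd : ∀ s : ℂ, a < s.re → DifferentiableAt ℂ h s)
    (he : ∀ s : ℂ, a < s.re → cexp (h s) = 1) {x y : ℂ} (hx : a < x.re) (hy : a < y.re) :
    h x = h y := by
  refine hp_const a h (fun s hs => ?_) hx hy
  have h1 := (hd s hs).hasDerivAt.cexp
  have h2 : (fun z => cexp (h z)) =ᶠ[𝓝 s] fun _ => (1 : ℂ) := by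
    filter_upwards [(hp_open a).mem_nhds hs] with w hw
    exact he w hw
  have h3 : HasDerivAt (fun z => cexp (h z)) 0 s := (hasDerivAt_const s (1 : ℂ)).congr_of_eventuallyEq h2
  have h4 := h1.unique h3
  rw [he s hs, one_mul] at h4
  rw [← h4]
  exact (hd s hs).hasDerivAt

/-- any holomorphic log of `ζ₁(s)/(s+1)` is bounded for `Re s > 2` -/
theorem log_bounded_right (G : ℂ → ℂ) (hG : ∀ s : ℂ, 2 < s.re → DifferentiableAt ℂ G s)
    (hGe : ∀ s : ℂ, 2 < s.re → cexp (G s) = riemannZeta₁ s / (s + 1)) :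
    ∃ K : ℝ, 1 ≤ K ∧ ∀ s : ℂ, 2 < s.re → ‖G s‖ ≤ K := by
  refine ⟨‖G 3 - PP 3‖ + 8, by linarith [norm_nonneg (G 3 - PP 3)], fun s hs => ?_⟩
  have h3 : (2 : ℝ) < (3 : ℂ).re := by norm_num
  have h := hp_exp_one 2 (fun z => G z - PP z) (fun z hz => (hG z hz).sub (PP_diff hz))
    (fun z hz => by
      have hne : cexp (PP z) ≠ 0 := Complex.exp_ne_zero _
      rw [Complex.exp_sub, hGe z hz, ← exp_PP hz, div_self hne]) hs h3
  have h' : G s = (G 3 - PP 3) + PP s := by
    have : G s - PP s = G 3 - PP 3 := h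
    rw [← this]; ring
  rw [h']
  exact (norm_add_le _ _).trans (by linarith [PP_bound hs])

end H332.FL
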